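import Mathlib

/-!
A purely algebraic step: an exactness relation for a function annihilated by two first-order
operators, checked by a polynomial relation `key`.
-/

namespace Pool.Agent.H17

theorem core {A R : Type*} [CommRing A] [CommRing R] [Algebra A R] (D0 D1 : Derivation A R R)
    (u d1 d2 w M h f K1 K2 r Z g e : R)
    (hu0 : D0 u = 0) (hu1 : D1 u = u)
    (hg : d2 * w * g = u * M * Z) (he : w * e = u * h * Z)
    (hZ0 : f * D0 Z = K1 * Z) (hZ1 : f * D1 Z = K2 * Z)
    (key : u * (2 * d1 * (d2 * w * u * (f * D0 M + M * K1) - D0 (d2 * w) * u * M * f)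
        + f * d2 * w * u * M)
      + 2 * d1 * d2 ^ 2 * (w * (f * u * h + f * u * D1 h + u * h * K2)
        - (f * D1 w * u * h + 2 * f * w * u * h)) = r * u ^ 2 * f * d2 ^ 2 * w ^ 2) :
    f * d2 ^ 2 * w ^ 2 * (u * (2 * d1 * D0 g + g) + 2 * d1 * (D1 e - 2 * e) - r * u ^ 2 * Z)
      = 0 := by
  have E1 : D0 (d2 * w) * g + d2 * w * D0 g = u * (D0 M * Z + M * D0 Z) := by
    have := congrArg D0 hg
    rw [Derivation.leibniz D0 (d2 * w) g, Derivation.leibniz D0 (u * M) Z,
      Derivation.leibniz D0 u M, hu0] at this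
    simp only [smul_eq_mul] at this
    linear_combination this
  have E2 : D1 w * e + w * D1 e = u * h * Z + u * D1 h * Z + u * h * D1 Z := by
    have := congrArg D1 he
    rw [Derivation.leibniz D1 w e, Derivation.leibniz D1 (u * h) Z,
      Derivation.leibniz D1 u h, hu1] at this
    simp only [smul_eq_mul] at this
    linear_combination this
  linear_combination (2 * u * d1 * f * d2 * w) * E1 + (2 * u ^ 2 * d1 * d2 * w * M) * hZ0
    + (u * f * d2 * w - 2 * u * d1 * f * D0 (d2 * w)) * hg + (2 * d1 * f * d2 ^ 2 * w) * E2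
    + (2 * d1 * d2 ^ 2 * w * u * h) * hZ1
    + (-4 * d1 * f * d2 ^ 2 * w - 2 * d1 * f * d2 ^ 2 * D1 w) * he + Z * key

end Pool.Agent.H17
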