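import Mathlib

/-!
Bivariate power series over the integers, with the two grading derivations.
-/

open MvPowerSeries

namespace Pool.Agent.H17

/-- power series in two variables over the integers -/
abbrev R2 := MvPowerSeries (Fin 2) ℤ

/-- the exponent vector `(n, m)` -/
noncomputable def ix (n m : ℕ) : Fin 2 →₀ ℕ := Finsupp.single 0 n + Finsupp.single 1 m

@[simp] lemma ix_zero (n m : ℕ) : ix n m 0 = n := by simp [ix]
@[simp] lemma ix_one (n m : ℕ) : ix n m 1 = m := by simp [ix]

lemma eq_ix (d : Fin 2 →₀ ℕ) : d = ix (d 0) (d 1) := by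
  ext i
  fin_cases i <;> simp

lemma ix_add (n m n' m' : ℕ) : ix n m + ix n' m' = ix (n + n') (m + m') := by
  ext i
  fin_cases i <;> simp

lemma ix_inj {n m n' m' : ℕ} : ix n m = ix n' m' ↔ n = n' ∧ m = m' := by
  constructor
  · intro h
    exact ⟨by simpa using congrArg (fun f => f 0) h, by simpa using congrArg (fun f => f 1) h⟩
  · rintro ⟨rfl, rfl⟩; rfl

/-- the grading derivation: multiplies the coefficient of `X^n Y^m` by `a n + b m`. -/
noncomputable def dl (a b : ℤ) : Derivation ℤ R2 R2 :=
  Derivation.mk'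
    { toFun := fun f => (fun d => (a * (d 0 : ℤ) + b * (d 1 : ℤ)) * coeff d f : R2)
      map_add' := by
        intro f g
        ext d
        simp only [map_add]
        change (a * (d 0 : ℤ) + b * (d 1 : ℤ)) * (coeff d f + coeff d g) =
          (a * (d 0 : ℤ) + b * (d 1 : ℤ)) * coeff d f + (a * (d 0 : ℤ) + b * (d 1 : ℤ)) * coeff d g
        ring
      map_smul' := by
        intro r f
        ext d
        change (a * (d 0 : ℤ) + b * (d 1 : ℤ)) * (r • coeff d f) =
          r • ((a * (d 0 : ℤ) + b * (d 1 : ℤ)) * coeff d f)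
        simp only [smul_eq_mul]
        ring }
    (by
      intro f g
      ext d
      change (a * (d 0 : ℤ) + b * (d 1 : ℤ)) * coeff d (f * g) = _
      simp only [smul_eq_mul, map_add, coeff_mul, Finset.mul_sum]
      have key : ∀ F G : R2, ∑ p ∈ Finset.HasAntidiagonal.antidiagonal d, coeff p.1 F * coeff p.2 G =
          ∑ p ∈ Finset.HasAntidiagonal.antidiagonal d, coeff p.2 F * coeff p.1 G := by
        intro F G
        exact (Finsupp.sum_antidiagonal_swap d (fun a b => coeff b F * coeff a G)).symm
      rw [key g, ← Finset.sum_add_distrib]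
      refine Finset.sum_congr rfl ?_
      intro p hp
      rw [Finset.HasAntidiagonal.mem_antidiagonal] at hp
      subst hp
      change _ = coeff p.1 f * ((a * (p.2 0 : ℤ) + b * (p.2 1 : ℤ)) * coeff p.2 g) +
        coeff p.2 g * ((a * (p.1 0 : ℤ) + b * (p.1 1 : ℤ)) * coeff p.1 f)
      simp only [Finsupp.add_apply, Nat.cast_add]
      ring)

lemma coeff_dl (a b : ℤ) (f : R2) (n m : ℕ) :
    coeff (ix n m) (dl a b f) = (a * n + b * m) * coeff (ix n m) f := by
  change (a * ((ix n m) 0 : ℤ) + b * ((ix n m) 1 : ℤ)) * coeff (ix n m) f = _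
  simp

lemma ext2 {f g : R2} (h : ∀ n m, coeff (ix n m) f = coeff (ix n m) g) : f = g := by
  ext d
  rw [eq_ix d]
  exact h _ _

lemma X0_eq : (X 0 : R2) = monomial (ix 1 0) 1 := by
  rw [X_def]; congr 1; simp [ix]

lemma X1_eq : (X 1 : R2) = monomial (ix 0 1) 1 := by
  rw [X_def]; congr 1; simp [ix]

lemma coeff_X0_mul (f : R2) (n m : ℕ) : coeff (ix (n + 1) m) (X 0 * f) = coeff (ix n m) f := by
  rw [X0_eq]
  have := coeff_add_monomial_mul (ix 1 0) (ix n m) f (1 : ℤ)
  rw [ix_add] at this
  simpa [add_comm] using this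

lemma coeff_X0_mul_zero (f : R2) (m : ℕ) : coeff (ix 0 m) (X 0 * f) = 0 := by
  rw [X0_eq, coeff_monomial_mul, if_neg]
  intro h
  have := h 0
  simp at this

lemma coeff_X1_mul (f : R2) (n m : ℕ) : coeff (ix n (m + 1)) (X 1 * f) = coeff (ix n m) f := by
  rw [X1_eq]
  have := coeff_add_monomial_mul (ix 0 1) (ix n m) f (1 : ℤ)
  rw [ix_add] at this
  simpa [add_comm] using this

lemma coeff_X1_mul_zero (f : R2) (n : ℕ) : coeff (ix n 0) (X 1 * f) = 0 := by
  rw [X1_eq, coeff_monomial_mul, if_neg]
  intro h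
  have := h 1
  simp at this

lemma dl_X0 (a b : ℤ) : dl a b (X 0) = C a * (X 0 : R2) := by
  apply ext2
  intro n m
  rw [coeff_dl]
  rcases n with _ | n
  · have := coeff_X0_mul_zero 1 m
    rw [mul_one] at this
    rw [coeff_C_mul, this]
    simp
  · have := coeff_X0_mul 1 n m
    rw [mul_one] at this
    rw [coeff_C_mul, this, coeff_one]
    by_cases h : ix n m = 0
    · have h0 : n = 0 := by simpa using congrArg (fun f => f 0) h
      have h1 : m = 0 := by simpa using congrArg (fun f => f 1) h
      subst h0; subst h1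
      simp
    · simp [h]

lemma dl_X1 (a b : ℤ) : dl a b (X 1) = C b * (X 1 : R2) := by
  apply ext2
  intro n m
  rw [coeff_dl]
  rcases m with _ | m
  · have := coeff_X1_mul_zero 1 n
    rw [mul_one] at this
    rw [coeff_C_mul, this]
    simp
  · have := coeff_X1_mul 1 n m
    rw [mul_one] at this
    rw [coeff_C_mul, this, coeff_one]
    by_cases h : ix n m = 0
    · have h0 : n = 0 := by simpa using congrArg (fun f => f 0) h
      have h1 : m = 0 := by simpa using congrArg (fun f => f 1) h
      subst h0; subst h1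
      simp
    · simp [h]

end Pool.Agent.H17
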