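import Mathlib
import Pool.Agent.H17.Grade

/-!
The series `sum_n C(2n,n) X^n (1+Y)^(3n+m)` and the two first-order relations it satisfies.
-/

open MvPowerSeries

namespace Pool.Agent.H17

/-- the series `sum_n C(2n,n) X^n (1+Y)^(3n+m)` -/
noncomputable def Zs (m : ℕ) : R2 :=
  fun d => ((Nat.centralBinom (d 0) * Nat.choose (3 * d 0 + m) (d 1) : ℕ) : ℤ)

lemma coeff_Zs (k n m : ℕ) :
    coeff (ix n m) (Zs k) = ((Nat.centralBinom n * Nat.choose (3 * n + k) m : ℕ) : ℤ) := by
  change ((Nat.centralBinom ((ix n m) 0) * Nat.choose (3 * (ix n m) 0 + k) ((ix n m) 1) : ℕ) : ℤ) = _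
  simp

lemma Zs_succ (k : ℕ) : (1 + X 1) * Zs k = Zs (k + 1) := by
  apply ext2
  intro n m
  rw [add_mul, one_mul, map_add]
  rcases m with _ | m
  · rw [coeff_X1_mul_zero, coeff_Zs, coeff_Zs]
    simp
  · rw [coeff_X1_mul, coeff_Zs, coeff_Zs, coeff_Zs]
    have : Nat.choose (3 * n + (k + 1)) (m + 1) =
        Nat.choose (3 * n + k) m + Nat.choose (3 * n + k) (m + 1) := by
      rw [← Nat.choose_succ_succ]; rfl
    rw [this]
    push_cast
    ring

lemma Zs_three : (1 + X 1) ^ 3 * Zs 0 = Zs 3 := by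
  rw [← Zs_succ 2, ← Zs_succ 1, ← Zs_succ 0]
  ring

/-- relation in the direction of `X` -/
lemma Zs_rel0 : dl 1 0 (Zs 0) = X 0 * (4 * dl 1 0 (Zs 3) + 2 * Zs 3) := by
  apply ext2
  intro n m
  rcases n with _ | n
  · rw [coeff_X0_mul_zero, coeff_dl]
    simp
  · rw [coeff_X0_mul, coeff_dl, map_add]
    have h4 : (4 : R2) = C 4 := by simp
    have h2 : (2 : R2) = C 2 := by simp
    rw [h4, h2, coeff_C_mul, coeff_C_mul, coeff_dl, coeff_Zs, coeff_Zs]
    have hc := Nat.succ_mul_centralBinom_succ n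
    have h3 : 3 * (n + 1) + 0 = 3 * n + 3 := by ring
    rw [h3]
    push_cast
    have hc' : ((n : ℤ) + 1) * (Nat.centralBinom (n + 1) : ℤ) =
        2 * (2 * n + 1) * (Nat.centralBinom n : ℤ) := by exact_mod_cast hc
    linear_combination (Nat.choose (3 * n + 3) m : ℤ) * hc'

/-- relation in the direction of `Y` -/
lemma Zs_rel1 : (1 + X 1) * dl 0 1 (Zs 0) = 3 * (X 1 * dl 1 0 (Zs 0)) := by
  have h3 : (3 : R2) = C 3 := by simp
  apply ext2
  intro n m
  rw [h3, coeff_C_mul, add_mul, one_mul, map_add]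
  rcases m with _ | m
  · rw [coeff_X1_mul_zero, coeff_X1_mul_zero, coeff_dl]
    simp
  · rw [coeff_X1_mul, coeff_X1_mul, coeff_dl, coeff_dl, coeff_dl, coeff_Zs, coeff_Zs]
    simp only [add_zero]
    have hc : ((Nat.choose (3 * n) (m + 1) : ℕ) : ℤ) * (m + 1) =
        (Nat.choose (3 * n) m : ℕ) * ((3 * n : ℤ) - m) := by
      rcases Nat.lt_or_ge (3 * n) m with h | h
      · rw [Nat.choose_eq_zero_of_lt h, Nat.choose_eq_zero_of_lt (by omega)]
        simp
      · have := Nat.choose_succ_right_eq (3 * n) m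
        have h' : ((3 * n - m : ℕ) : ℤ) = (3 * n : ℤ) - m := by
          rw [Nat.cast_sub h]; push_cast; ring
        rw [← h']
        exact_mod_cast this
    push_cast
    linear_combination (Nat.centralBinom n : ℤ) * hc

end Pool.Agent.H17
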