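import Mathlib
import Pool.Agent.H17.Grade
import Pool.Agent.H17.Core
import Pool.Agent.H17.Level3

/-!
Integrality of the auxiliary sequence for the series with `51 k + 7`.
-/

open MvPowerSeries

namespace Pool.Agent.H17

lemma dnum (D : Derivation ℤ R2 R2) (n : ℕ) [n.AtLeastTwo] :
    D (no_index (OfNat.ofNat n : R2)) = 0 := by
  have h : (OfNat.ofNat n : R2) = ((OfNat.ofNat n : ℕ) : R2) := (Nat.cast_ofNat).symm
  rw [h]
  exact D.map_natCast _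

lemma dl_split (f : R2) : dl (-2) 1 f = dl 0 1 f - 2 * dl 1 0 f := by
  have h2 : (2 : R2) = C 2 := by simp
  apply ext2
  intro n m
  rw [map_sub, h2, coeff_C_mul, coeff_dl, coeff_dl, coeff_dl]
  ring

lemma D0_X0 : dl 1 0 (X 0) = X 0 := by rw [dl_X0]; simp
lemma D0_X1 : dl 1 0 (X 1) = 0 := by rw [dl_X1]; simp
lemma D1_X0 : dl (-2) 1 (X 0) = -2 * X 0 := by rw [dl_X0]; simp
lemma D1_X1 : dl (-2) 1 (X 1) = X 1 := by rw [dl_X1]; simp

/-- the variable `x = X Y^2` -/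
noncomputable def xx : R2 := X 0 * X 1 ^ 2

lemma D0_xx : dl 1 0 xx = xx := by
  unfold xx
  rw [Derivation.leibniz, Derivation.leibniz_pow, D0_X0, D0_X1]
  simp only [smul_eq_mul, nsmul_eq_mul]
  ring

lemma D1_xx : dl (-2) 1 xx = 0 := by
  unfold xx
  rw [Derivation.leibniz, Derivation.leibniz_pow, D1_X0, D1_X1]
  simp only [smul_eq_mul, nsmul_eq_mul]
  push_cast
  ring

lemma Z_eq0 : (X 1 ^ 2 - 4 * xx * (1 + X 1) ^ 3) * dl 1 0 (Zs 0)
    = (2 * xx * (1 + X 1) ^ 3) * Zs 0 := by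
  have h3 : dl 1 0 (Zs 3) = (1 + X 1) ^ 3 * dl 1 0 (Zs 0) := by
    rw [← Zs_three, Derivation.leibniz, Derivation.leibniz_pow, map_add, D0_X1,
      Derivation.map_one_eq_zero]
    simp only [smul_eq_mul, nsmul_eq_mul]
    ring
  have h := Zs_rel0
  rw [h3, ← Zs_three] at h
  unfold xx
  linear_combination (X 1 ^ 2) * h

lemma Z_eq1 : (X 1 ^ 2 - 4 * xx * (1 + X 1) ^ 3) * dl (-2) 1 (Zs 0)
    = (2 * xx * (X 1 - 2) * (1 + X 1) ^ 2) * Zs 0 := by
  have h1 : (1 + X 1 : R2) ≠ 0 := by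
    intro h
    have := congrArg constantCoeff h
    simp at this
  apply mul_left_cancel₀ h1
  rw [dl_split]
  linear_combination (X 1 ^ 2 - 4 * xx * (1 + X 1) ^ 3) * Zs_rel1 + (X 1 - 2) * Z_eq0

/-- `1 + 432 x` -/
noncomputable def d1 : R2 := 1 + 432 * xx
/-- `1 + 189 x` -/
noncomputable def d2 : R2 := 1 + 189 * xx
/-- the polar polynomial, divided by `Y` -/
noncomputable def w0 : R2 :=
  d1 * d2 ^ 2 + 216 * (X 0 * X 1) * (1 - 54 * xx) * (1 - 1323 * xx + 186624 * xx ^ 2)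
/-- the polar polynomial -/
noncomputable def w : R2 :=
  d1 * d2 ^ 2 * X 1 + 216 * xx * (1 - 54 * xx) * (1 - 1323 * xx + 186624 * xx ^ 2)
/-- numerator polynomial -/
noncomputable def MM : R2 :=
  2 * (1 - 4941 * xx + 404595 * xx ^ 2 + 708804513 * xx ^ 3 - 42192163872 * xx ^ 4
    - 2821109907456 * xx ^ 5 + 101559956668416 * xx ^ 6)
  - (37 + 4833 * xx - 93312 * xx ^ 2) * w
/-- the certificate polynomial -/
noncomputable def hh : R2 :=
  (36 + 37908 * xx - 157464 * xx ^ 2 + 1269789696 * xx ^ 3)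
  - (73 + 66366 * xx + 6453837 * xx ^ 2 + 1603613376 * xx ^ 3 + 15237476352 * xx ^ 4) * (1 + X 1)
  + (37 + 28242 * xx + 6383853 * xx ^ 2 + 334768464 * xx ^ 3 + 7618738176 * xx ^ 4)
    * (1 + X 1) ^ 2

lemma w_eq : w = X 1 * w0 := by
  unfold w w0 xx; ring

lemma D0_d1 : dl 1 0 d1 = 432 * xx := by
  simp only [d1, map_add, Derivation.leibniz, D0_xx, dnum, Derivation.map_one_eq_zero,
    smul_eq_mul]
  ring

lemma D0_d2 : dl 1 0 d2 = 189 * xx := by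
  simp only [d2, map_add, Derivation.leibniz, D0_xx, dnum, Derivation.map_one_eq_zero,
    smul_eq_mul]
  ring

lemma D1_d1 : dl (-2) 1 d1 = 0 := by
  simp only [d1, map_add, Derivation.leibniz, D1_xx, dnum, Derivation.map_one_eq_zero,
    smul_eq_mul]
  ring

lemma D1_d2 : dl (-2) 1 d2 = 0 := by
  simp only [d2, map_add, Derivation.leibniz, D1_xx, dnum, Derivation.map_one_eq_zero,
    smul_eq_mul]
  ring

lemma D0_w : dl 1 0 w = (432 * xx * d2 ^ 2 + 378 * xx * d1 * d2) * X 1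
    + (216 * xx - 594864 * xx ^ 2 + 167226768 * xx ^ 3 - 8707129344 * xx ^ 4) := by
  simp only [w, map_add, map_sub, Derivation.leibniz, Derivation.leibniz_pow,
    D0_xx, D0_X1, D0_d1, D0_d2, dnum, Derivation.map_one_eq_zero, smul_eq_mul, nsmul_eq_mul]
  push_cast
  ring

lemma D1_w : dl (-2) 1 w = d1 * d2 ^ 2 * X 1 := by
  simp only [w, map_add, map_sub, Derivation.leibniz, Derivation.leibniz_pow,
    D1_xx, D1_X1, D1_d1, D1_d2, dnum, Derivation.map_one_eq_zero, smul_eq_mul, nsmul_eq_mul]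
  push_cast
  ring

lemma D0_MM : dl 1 0 MM =
    2 * (- 4941 * xx + 809190 * xx ^ 2 + 2126413539 * xx ^ 3 - 168768655488 * xx ^ 4
    - 14105549537280 * xx ^ 5 + 609359740010496 * xx ^ 6)
    - (4833 * xx - 186624 * xx ^ 2) * w - (37 + 4833 * xx - 93312 * xx ^ 2) *
    ((432 * xx * d2 ^ 2 + 378 * xx * d1 * d2) * X 1
    + (216 * xx - 594864 * xx ^ 2 + 167226768 * xx ^ 3 - 8707129344 * xx ^ 4)) := by
  simp only [MM, map_add, map_sub, Derivation.leibniz, Derivation.leibniz_pow,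
    D0_xx, D0_w, dnum, Derivation.map_one_eq_zero, smul_eq_mul, nsmul_eq_mul]
  push_cast
  ring

lemma D1_hh : dl (-2) 1 hh =
    - (73 + 66366 * xx + 6453837 * xx ^ 2 + 1603613376 * xx ^ 3 + 15237476352 * xx ^ 4) * X 1
    + (37 + 28242 * xx + 6383853 * xx ^ 2 + 334768464 * xx ^ 3 + 7618738176 * xx ^ 4)
    * (2 * (1 + X 1) * X 1) := by
  simp only [hh, map_add, map_sub, Derivation.leibniz, Derivation.leibniz_pow,
    D1_xx, D1_X1, dnum, Derivation.map_one_eq_zero, smul_eq_mul, nsmul_eq_mul]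
  push_cast
  ring

lemma D0_d2w : dl 1 0 (d2 * w) = 189 * xx * w + d2 *
    ((432 * xx * d2 ^ 2 + 378 * xx * d1 * d2) * X 1
    + (216 * xx - 594864 * xx ^ 2 + 167226768 * xx ^ 3 - 8707129344 * xx ^ 4)) := by
  rw [Derivation.leibniz, D0_w, D0_d2]
  simp only [smul_eq_mul]
  ring

set_option maxRecDepth 100000 in
lemma key51 : X 1 * (2 * d1 * (d2 * w * X 1 * ((X 1 ^ 2 - 4 * xx * (1 + X 1) ^ 3) * dl 1 0 MM
        + MM * (2 * xx * (1 + X 1) ^ 3)) - dl 1 0 (d2 * w) * X 1 * MM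
          * (X 1 ^ 2 - 4 * xx * (1 + X 1) ^ 3))
        + (X 1 ^ 2 - 4 * xx * (1 + X 1) ^ 3) * d2 * w * X 1 * MM)
      + 2 * d1 * d2 ^ 2 * (w * ((X 1 ^ 2 - 4 * xx * (1 + X 1) ^ 3) * X 1 * hh
        + (X 1 ^ 2 - 4 * xx * (1 + X 1) ^ 3) * X 1 * dl (-2) 1 hh
        + X 1 * hh * (2 * xx * (X 1 - 2) * (1 + X 1) ^ 2))
        - ((X 1 ^ 2 - 4 * xx * (1 + X 1) ^ 3) * dl (-2) 1 w * X 1 * hh
          + 2 * (X 1 ^ 2 - 4 * xx * (1 + X 1) ^ 3) * w * X 1 * hh))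
      = (6048 * xx - 37) * X 1 ^ 2 * (X 1 ^ 2 - 4 * xx * (1 + X 1) ^ 3) * d2 ^ 2 * w ^ 2 := by
  rw [D0_MM, D1_hh, D0_d2w, D1_w]
  unfold MM hh w d1 d2
  generalize xx = x
  generalize (X 1 : R2) = u
  ring

lemma cc_xx : constantCoeff xx = 0 := by
  unfold xx; simp

lemma cc_num (n : ℕ) [n.AtLeastTwo] : constantCoeff (no_index (OfNat.ofNat n : R2)) = (n : ℤ) := by
  have h : (OfNat.ofNat n : R2) = ((OfNat.ofNat n : ℕ) : R2) := (Nat.cast_ofNat).symm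
  rw [h, map_natCast]
  rfl

lemma cc_d2 : constantCoeff d2 = ((1 : ℤˣ) : ℤ) := by
  simp [d2, cc_xx]

lemma cc_w0 : constantCoeff w0 = ((1 : ℤˣ) : ℤ) := by
  simp [w0, d1, d2, cc_xx]

/-- inverse of `d2` -/
noncomputable def d2i : R2 := invOfUnit d2 1
/-- inverse of `w0` -/
noncomputable def wi : R2 := invOfUnit w0 1

lemma d2_mul : d2 * d2i = 1 := mul_invOfUnit _ _ cc_d2
lemma w0_mul : w0 * wi = 1 := mul_invOfUnit _ _ cc_w0

/-- the main series -/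
noncomputable def gg : R2 := MM * Zs 0 * d2i * wi
/-- the certificate series -/
noncomputable def ee : R2 := hh * Zs 0 * wi

lemma hgg : d2 * w * gg = X 1 * MM * Zs 0 := by
  rw [w_eq]
  unfold gg
  linear_combination (X 1 * MM * Zs 0) * (w0 * wi * d2_mul + w0_mul)

lemma hee : w * ee = X 1 * hh * Zs 0 := by
  rw [w_eq]
  unfold ee
  linear_combination (X 1 * hh * Zs 0) * w0_mul

lemma main_rel : X 1 * (2 * d1 * dl 1 0 gg + gg) + 2 * d1 * (dl (-2) 1 ee - 2 * ee)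
    - (6048 * xx - 37) * X 1 ^ 2 * Zs 0 = 0 := by
  have hcore := core (dl 1 0) (dl (-2) 1) (X 1) d1 d2 w MM hh _ _ _ (6048 * xx - 37) (Zs 0) gg ee
    D0_X1 D1_X1 hgg hee Z_eq0 Z_eq1 key51
  have hX1 : (X 1 : R2) ≠ 0 := by
    intro h
    have := congrArg (coeff (ix 0 1)) h
    rw [X1_eq, coeff_monomial_same] at this
    simp at this
  have hd2 : d2 ≠ 0 := by
    intro h
    have := congrArg constantCoeff h
    rw [cc_d2] at this
    simp at this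
  have hw0 : w0 ≠ 0 := by
    intro h
    have := congrArg constantCoeff h
    rw [cc_w0] at this
    simp at this
  have hw : w ≠ 0 := by
    rw [w_eq]
    exact mul_ne_zero hX1 hw0
  have hf : (X 1 ^ 2 - 4 * xx * (1 + X 1) ^ 3 : R2) ≠ 0 := by
    have : (X 1 ^ 2 - 4 * xx * (1 + X 1) ^ 3 : R2) = X 1 ^ 2 * (1 - 4 * X 0 * (1 + X 1) ^ 3) := by
      unfold xx; ring
    rw [this]
    apply mul_ne_zero (pow_ne_zero _ hX1)
    intro h
    have := congrArg constantCoeff h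
    simp at this
  have hne : (X 1 ^ 2 - 4 * xx * (1 + X 1) ^ 3) * d2 ^ 2 * w ^ 2 ≠ 0 :=
    mul_ne_zero (mul_ne_zero hf (pow_ne_zero _ hd2)) (pow_ne_zero _ hw)
  exact (mul_eq_zero.mp hcore).resolve_left hne

lemma coeff_xx_mul (f : R2) (n m : ℕ) :
    coeff (ix (n + 1) (m + 2)) (xx * f) = coeff (ix n m) f := by
  unfold xx
  rw [mul_assoc, coeff_X0_mul, pow_two, mul_assoc, coeff_X1_mul, coeff_X1_mul]

lemma coeff_xx_mul_zero (f : R2) (m : ℕ) : coeff (ix 0 m) (xx * f) = 0 := by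
  unfold xx
  rw [mul_assoc, coeff_X0_mul_zero]

lemma coeff_num_mul (k : ℤ) (f : R2) (d : Fin 2 →₀ ℕ) : coeff d ((k : R2) * f) = k * coeff d f := by
  have : (k : R2) = C k := by simp
  rw [this, coeff_C_mul]

/-- the auxiliary integer sequence -/
noncomputable def KK (n : ℕ) : ℤ := coeff (ix n (2 * n + 1)) gg

/-- `(3n)!/n!^3` in the form `C(2n,n) C(3n,2n)` -/
def FF (n : ℕ) : ℕ := Nat.centralBinom n * Nat.choose (3 * n) (2 * n)

lemma coeff_FF (n : ℕ) : coeff (ix n (2 * n)) (Zs 0) = (FF n : ℤ) := by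
  rw [coeff_Zs]; rfl

lemma KK_zero : KK 0 = -37 := by
  have h := congrArg (coeff (ix 0 2)) main_rel
  have e1 : X 1 * (2 * d1 * dl 1 0 gg + gg) + 2 * d1 * (dl (-2) 1 ee - 2 * ee)
      - (6048 * xx - 37) * X 1 ^ 2 * Zs 0 =
      ((2 : ℤ) : R2) * (X 1 * dl 1 0 gg) + ((864 : ℤ) : R2) * (xx * (X 1 * dl 1 0 gg)) + X 1 * gg
      + ((2 : ℤ) : R2) * (dl (-2) 1 ee) + ((864 : ℤ) : R2) * (xx * dl (-2) 1 ee)
      + ((-4 : ℤ) : R2) * ee + ((-1728 : ℤ) : R2) * (xx * ee)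
      + ((-6048 : ℤ) : R2) * (xx * (X 1 * (X 1 * Zs 0))) + ((37 : ℤ) : R2) * (X 1 * (X 1 * Zs 0)) := by
    unfold d1; push_cast; ring
  rw [e1] at h
  simp only [map_add, coeff_num_mul, coeff_xx_mul_zero, map_zero] at h
  have e2 : (ix 0 2) = ix 0 (1 + 1) := rfl
  rw [e2] at h
  simp only [coeff_X1_mul] at h
  rw [coeff_dl, coeff_dl] at h
  have e4 : coeff (ix 0 0) (Zs 0) = 1 := by
    rw [coeff_Zs]; simp
  rw [e4] at h
  have : KK 0 = coeff (ix 0 1) gg := rfl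
  rw [this]
  push_cast at h
  linarith

lemma KK_rec (n : ℕ) : (2 * ((n : ℤ) + 1) + 1) * KK (n + 1) + 864 * n * KK n =
    6048 * FF n - 37 * FF (n + 1) := by
  have h := congrArg (coeff (ix (n + 1) (2 * n + 2 + 2))) main_rel
  have e1 : X 1 * (2 * d1 * dl 1 0 gg + gg) + 2 * d1 * (dl (-2) 1 ee - 2 * ee)
      - (6048 * xx - 37) * X 1 ^ 2 * Zs 0 =
      ((2 : ℤ) : R2) * (X 1 * dl 1 0 gg) + ((864 : ℤ) : R2) * (xx * (X 1 * dl 1 0 gg)) + X 1 * gg
      + ((2 : ℤ) : R2) * (dl (-2) 1 ee) + ((864 : ℤ) : R2) * (xx * dl (-2) 1 ee)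
      + ((-4 : ℤ) : R2) * ee + ((-1728 : ℤ) : R2) * (xx * ee)
      + ((-6048 : ℤ) : R2) * (xx * (X 1 * (X 1 * Zs 0))) + ((37 : ℤ) : R2) * (X 1 * (X 1 * Zs 0)) := by
    unfold d1; push_cast; ring
  rw [e1] at h
  simp only [map_add, coeff_num_mul, coeff_xx_mul, map_zero] at h
  have e2 : ix (n + 1) (2 * n + 2 + 2) = ix (n + 1) ((2 * n + 2 + 1) + 1) := rfl
  have e3 : ix n (2 * n + 2) = ix n ((2 * n + 1) + 1) := rfl
  rw [e2, e3] at h
  simp only [coeff_X1_mul, coeff_dl, coeff_FF] at h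
  have e4 : ix (n + 1) (2 * n + 2) = ix (n + 1) (2 * (n + 1)) := rfl
  rw [e4, coeff_FF] at h
  have k1 : KK (n + 1) = coeff (ix (n + 1) (2 * n + 2 + 1)) gg := rfl
  have k2 : KK n = coeff (ix n (2 * n + 1)) gg := rfl
  rw [k1, k2]
  push_cast at h ⊢
  linarith

/-- congruence modulo 27 for the main series -/
lemma gg_mod : ∃ q : R2, gg = (2 - 37 * X 1) * Zs 0 + 27 * q := by
  have h := hgg
  rw [w_eq] at h
  have hX1 : (X 1 : R2) ≠ 0 := by
    intro h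
    have := congrArg (coeff (ix 0 1)) h
    rw [X1_eq, coeff_monomial_same] at this
    simp at this
  have h' : d2 * w0 * gg = MM * Zs 0 := by
    apply mul_left_cancel₀ hX1
    linear_combination h
  -- d2 * w0 = 1 + 27 * a
  obtain ⟨a, ha⟩ : ∃ a : R2, d2 * w0 = 1 + 27 * a := by
    refine ⟨7 * xx * w0 + (16 * xx * d2 ^ 2 + 7 * xx * (2 + 189 * xx)) + 8 * (X 0 * X 1)
      * (1 - 54 * xx) * (1 - 1323 * xx + 186624 * xx ^ 2), ?_⟩
    unfold w0 d1 d2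
    ring
  obtain ⟨b, hb⟩ : ∃ b : R2, MM = (2 - 37 * X 1) + 27 * b := by
    refine ⟨2 * (- 183 * xx + 14985 * xx ^ 2 + 26252019 * xx ^ 3 - 1562672736 * xx ^ 4
      - 104485552128 * xx ^ 5 + 3761479876608 * xx ^ 6) - (179 * xx - 3456 * xx ^ 2) * w
      - 37 * (16 * xx * d2 ^ 2 * X 1 + 7 * xx * (2 + 189 * xx) * X 1 + 8 * xx
      * (1 - 54 * xx) * (1 - 1323 * xx + 186624 * xx ^ 2)), ?_⟩
    unfold MM w d1 d2
    ring
  refine ⟨b * Zs 0 - a * gg, ?_⟩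
  rw [ha, hb] at h'
  linear_combination h'

lemma KK_mod (n : ℕ) : ∃ z : ℤ, KK n =
    2 * (Nat.centralBinom n * Nat.choose (3 * n) (2 * n + 1) : ℕ) - 37 * (FF n : ℤ) + 27 * z := by
  obtain ⟨q, hq⟩ := gg_mod
  refine ⟨coeff (ix n (2 * n + 1)) q, ?_⟩
  have e : (2 - 37 * X 1) * Zs 0 + 27 * q =
      ((2 : ℤ) : R2) * Zs 0 + ((-37 : ℤ) : R2) * (X 1 * Zs 0) + ((27 : ℤ) : R2) * q := by
    push_cast; ring
  unfold KK
  rw [hq, e]
  simp only [map_add, coeff_num_mul, coeff_X1_mul, coeff_Zs, add_zero, FF]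
  ring

end Pool.Agent.H17
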