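import Mathlib
import Pool.Agent.H17.S51

/-!
From the auxiliary integer sequence to the final arithmetic statements for the `51 k + 7` sums.
-/

namespace Pool.Agent.H17

open Finset

/-- digit sum in base 3 -/
def ds (n : ℕ) : ℕ := (Nat.digits 3 n).sum

lemma ds_step (q j : ℕ) (hj : j < 3) (h : 3 * q + j ≠ 0) : ds (3 * q + j) = j + ds q := by
  unfold ds
  have : Nat.digits 3 (3 * q + j) = j :: Nat.digits 3 q := by
    rw [Nat.digits_def' (by norm_num) (Nat.pos_of_ne_zero h)]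
    congr 1
    · omega
    · congr 1; omega
  rw [this, List.sum_cons]

lemma ds_eq_zero {n : ℕ} (h : ds n = 0) : n = 0 := by
  induction n using Nat.strong_induction_on with
  | _ n ih =>
    by_contra hn
    have h1 : n = 3 * (n / 3) + n % 3 := by omega
    rw [h1, ds_step _ _ (by omega) (by omega)] at h
    have h2 : n % 3 = 0 := by omega
    have h3 : ds (n / 3) = 0 := by omega
    have := ih (n / 3) (by omega) h3
    omega

lemma ds_val (n : ℕ) : padicValNat 3 (2 * n + 1) ≤ ds n ∧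
    (padicValNat 3 (2 * n + 1) = ds n ↔ ∃ m : ℕ, 2 * n + 1 = 3 ^ m) := by
  induction n using Nat.strong_induction_on with
  | _ n ih =>
    by_cases hn : n % 3 = 1
    · obtain ⟨q, hq⟩ : ∃ q, n = 3 * q + 1 := ⟨n / 3, by omega⟩
      have ihq := ih q (by omega)
      subst hq
      have e : 2 * (3 * q + 1) + 1 = 3 * (2 * q + 1) := by ring
      rw [e, padicValNat.mul (by norm_num) (by omega), padicValNat_self,
        ds_step q 1 (by norm_num) (by omega)]
      refine ⟨by omega, ?_⟩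
      constructor
      · intro h
        obtain ⟨m, hm⟩ := ihq.2.mp (by omega)
        exact ⟨m + 1, by rw [hm]; ring⟩
      · rintro ⟨m, hm⟩
        have hm0 : m ≠ 0 := by
          rintro rfl
          simp at hm
        obtain ⟨m', rfl⟩ := Nat.exists_eq_succ_of_ne_zero hm0
        have : 2 * q + 1 = 3 ^ m' := by
          have : 3 * (2 * q + 1) = 3 * 3 ^ m' := by rw [hm, Nat.succ_eq_add_one, pow_succ]; ring
          omega
        have := ihq.2.mpr ⟨m', this⟩
        omega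
    · have h3 : ¬ 3 ∣ (2 * n + 1) := by omega
      rw [padicValNat.eq_zero_of_not_dvd h3]
      refine ⟨Nat.zero_le _, ?_⟩
      constructor
      · intro h
        have := ds_eq_zero h.symm
        subst this
        exact ⟨0, by simp⟩
      · rintro ⟨m, hm⟩
        have hm0 : m = 0 := by
          by_contra hm0
          obtain ⟨m', rfl⟩ := Nat.exists_eq_succ_of_ne_zero hm0
          apply h3
          rw [hm]
          exact Dvd.intro_left (3 ^ m') rfl
        subst hm0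
        have : n = 0 := by simpa using hm
        subst this
        simp [ds]

lemma FF_fact (n : ℕ) : FF n * (n.factorial) ^ 3 = (3 * n).factorial := by
  unfold FF
  have h1 := Nat.choose_mul_factorial_mul_factorial (show 2 * n ≤ 3 * n by omega)
  have h2 := Nat.choose_mul_factorial_mul_factorial (show n ≤ 2 * n by omega)
  have e1 : 3 * n - 2 * n = n := by omega
  have e2 : 2 * n - n = n := by omega
  rw [e1] at h1
  rw [e2] at h2
  rw [← h1, ← h2, Nat.centralBinom_eq_two_mul_choose]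
  ring

lemma FF_pos (n : ℕ) : 0 < FF n := by
  unfold FF
  exact Nat.mul_pos (Nat.centralBinom_pos n) (Nat.choose_pos (by omega))

lemma ds_three_mul (n : ℕ) : ds (3 * n) = ds n := by
  rcases Nat.eq_zero_or_pos n with rfl | h
  · rfl
  · have := ds_step n 0 (by norm_num) (by omega)
    simpa using this

lemma FF_val (n : ℕ) : padicValNat 3 (FF n) = ds n := by
  have : Fact (Nat.Prime 3) := ⟨Nat.prime_three⟩
  have h := congrArg (padicValNat 3) (FF_fact n)
  rw [padicValNat.mul (FF_pos n).ne' (pow_ne_zero _ (Nat.factorial_ne_zero n)),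
    padicValNat.pow] at h
  have l1 := sub_one_mul_padicValNat_factorial (p := 3) n
  have l2 := sub_one_mul_padicValNat_factorial (p := 3) (3 * n)
  have d1 := Nat.digit_sum_le 3 n
  have d2 := Nat.digit_sum_le 3 (3 * n)
  have e := ds_three_mul n
  unfold ds at *
  omega

/-- `(2n+1)` divides `FF n`, with all consequences needed. -/
lemma exists_G (n : ℕ) : ∃ g : ℕ, Nat.choose (3 * n) (2 * n) = (2 * n + 1) * g ∧
    Nat.choose (3 * n) (2 * n + 1) = n * g := by
  have h := Nat.choose_succ_right_eq (3 * n) (2 * n)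
  have e : 3 * n - 2 * n = n := by omega
  rw [e] at h
  have hc : Nat.Coprime (2 * n + 1) n :=
    Nat.isCoprime_iff_coprime.mp ⟨1, -2, by push_cast; ring⟩
  have hd : (2 * n + 1) ∣ Nat.choose (3 * n) (2 * n) * n := ⟨Nat.choose (3 * n) (2 * n + 1), by
    rw [← h]; ring⟩
  obtain ⟨g, hg⟩ := hc.dvd_of_dvd_mul_right hd
  refine ⟨g, hg, ?_⟩
  rw [hg] at h
  have : (2 * n + 1) * Nat.choose (3 * n) (2 * n + 1) = (2 * n + 1) * (n * g) := by
    rw [mul_comm, h]; ring
  exact Nat.eq_of_mul_eq_mul_left (by omega) this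

/-- the integers `G n = FF n / (2n+1)` -/
lemma G_props (n : ℕ) (hn : 1 ≤ n) : ∃ G : ℕ, FF n = (2 * n + 1) * (2 * G) ∧
    Nat.centralBinom n * Nat.choose (3 * n) (2 * n + 1) = n * (2 * G) ∧
    ((∀ m : ℕ, 2 * n + 1 ≠ 3 ^ m) → 3 ∣ G) ∧
    ((∃ m : ℕ, 2 * n + 1 = 3 ^ m) → ¬ 3 ∣ n * G) := by
  obtain ⟨g, hg1, hg2⟩ := exists_G n
  obtain ⟨c, hc⟩ := Nat.two_dvd_centralBinom_of_one_le hn
  have hF : FF n = (2 * n + 1) * (2 * (c * g)) := by
    unfold FF; rw [hg1, hc]; ring
  have hG0 : c * g ≠ 0 := by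
    intro h0
    have := FF_pos n
    rw [hF, h0] at this
    simp at this
  have h3 : Fact (Nat.Prime 3) := ⟨Nat.prime_three⟩
  have hv : padicValNat 3 (2 * n + 1) + padicValNat 3 (c * g) = ds n := by
    have v1 := padicValNat.mul (p := 3) (a := 2 * n + 1) (b := 2 * (c * g)) (by omega)
      (mul_ne_zero two_ne_zero hG0)
    have v2 := padicValNat.mul (p := 3) (a := 2) (b := c * g) (by norm_num) hG0
    have v3 : padicValNat 3 2 = 0 := padicValNat.eq_zero_of_not_dvd (by norm_num)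
    rw [← FF_val, hF, v1, v2, v3, zero_add]
  refine ⟨c * g, hF, ?_, ?_, ?_⟩
  · rw [hg2, hc]; ring
  · intro h
    have h1 := (ds_val n).1
    have h2 : padicValNat 3 (2 * n + 1) ≠ ds n := by
      intro h'
      obtain ⟨m, hm⟩ := (ds_val n).2.mp h'
      exact h m hm
    have h4 : 1 ≤ padicValNat 3 (c * g) := by omega
    exact dvd_of_one_le_padicValNat h4
  · intro h
    have h1 := (ds_val n).2.mpr h
    have h4 : padicValNat 3 (c * g) = 0 := by omega
    have h5 : ¬ 3 ∣ c * g := by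
      intro h6
      have := one_le_padicValNat_of_dvd hG0 h6
      omega
    have h6 : ¬ 3 ∣ n := by
      obtain ⟨m, hm⟩ := h
      have hm0 : m ≠ 0 := by
        rintro rfl
        simp at hm
        omega
      have h7 : 3 ∣ 2 * n + 1 := by rw [hm]; exact dvd_pow_self 3 hm0
      omega
    intro h7
    rcases (Nat.prime_three.dvd_mul).mp h7 with h8 | h8
    · exact h6 h8
    · exact h5 h8

/-- the summand -/
def tt (k : ℕ) : ℤ := (51 * k + 7) * (Nat.choose (2 * k) k : ℤ) ^ 2 * (Nat.choose (3 * k) k : ℤ)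

/-- the sum -/
def SS (n : ℕ) : ℤ := ∑ k ∈ range n, (-1728 : ℤ) ^ (n - 1 - k) * tt k

lemma SS_succ (n : ℕ) : SS (n + 1) = -1728 * SS n + tt n := by
  unfold SS
  rw [sum_range_succ, mul_sum]
  congr 1
  · apply sum_congr rfl
    intro k hk
    rw [mem_range] at hk
    have : n + 1 - 1 - k = (n - 1 - k) + 1 := by omega
    rw [this, pow_succ]
    ring
  · simp

lemma tt_eq (k : ℕ) : tt k = (51 * k + 7) * (Nat.centralBinom k : ℤ) * (FF k : ℤ) := by
  unfold tt FF
  have : Nat.choose (3 * k) k = Nat.choose (3 * k) (2 * k) := by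
    rw [← Nat.choose_symm (show 2 * k ≤ 3 * k by omega)]
    congr 1
    omega
  rw [this, Nat.centralBinom_eq_two_mul_choose]
  push_cast
  ring

/-- the normalised quotient -/
def aa (n : ℕ) : ℚ := (SS n : ℚ) / (n * (2 * n + 1) * (Nat.centralBinom n : ℚ))

lemma cb_succ (n : ℕ) : ((n : ℚ) + 1) * (Nat.centralBinom (n + 1) : ℚ) =
    2 * (2 * n + 1) * (Nat.centralBinom n : ℚ) := by
  exact_mod_cast Nat.succ_mul_centralBinom_succ n

lemma aa_succ (n : ℕ) (hn : 1 ≤ n) : (2 * (n : ℚ) + 3) * aa (n + 1) + 864 * n * aa n =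
    (51 * n + 7) * (FF n : ℚ) / (2 * (2 * n + 1)) := by
  have hb : (Nat.centralBinom n : ℚ) ≠ 0 := by exact_mod_cast (Nat.centralBinom_pos n).ne'
  have hn0 : (n : ℚ) ≠ 0 := by
    have : n ≠ 0 := by omega
    exact_mod_cast this
  have h21 : (2 * (n : ℚ) + 1) ≠ 0 := by positivity
  have h23 : (2 * (n : ℚ) + 3) ≠ 0 := by positivity
  have hS : (SS (n + 1) : ℚ) = -1728 * (SS n : ℚ) + (51 * n + 7) * (Nat.centralBinom n : ℚ) *
      (FF n : ℚ) := by
    rw [SS_succ, tt_eq]; push_cast; ring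
  have e1 : aa (n + 1) = (SS (n + 1) : ℚ) /
      ((2 * n + 3) * (2 * (2 * n + 1) * (Nat.centralBinom n : ℚ))) := by
    unfold aa
    rw [← cb_succ]
    congr 1
    push_cast
    ring
  have e2 : aa n = (SS n : ℚ) / (n * (2 * n + 1) * (Nat.centralBinom n : ℚ)) := rfl
  rw [e1, e2, hS]
  field_simp
  ring

lemma KK_one : KK 1 = 1942 := by
  have h := KK_rec 0
  have e0 : FF 0 = 1 := by decide
  have e1 : FF 1 = 6 := by decide
  rw [e0, show (0 + 1 : ℕ) = 1 from rfl, e1, KK_zero] at h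
  push_cast at h
  omega

lemma aa_one : aa 1 = 7 / 6 := by
  have e : SS 1 = 7 := by decide
  unfold aa
  rw [e]
  norm_num [Nat.centralBinom, Nat.choose]

lemma aa_KK (n : ℕ) (hn : 1 ≤ n) :
    1728 * aa n = 37 * (FF n : ℚ) / (2 * n + 1) + (KK n : ℚ) := by
  induction n, hn using Nat.le_induction with
  | base =>
    have e1 : FF 1 = 6 := by decide
    rw [aa_one, KK_one, e1]
    norm_num
  | succ n hn ih =>
    have h := aa_succ n hn
    have hk := KK_rec n
    have hk' : (2 * ((n : ℚ) + 1) + 1) * (KK (n + 1) : ℚ) + 864 * n * (KK n : ℚ) =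
      6048 * FF n - 37 * FF (n + 1) := by exact_mod_cast hk
    have h21 : (2 * (n : ℚ) + 1) ≠ 0 := by positivity
    have h23 : (2 * ((n : ℚ) + 1) + 1) ≠ 0 := by positivity
    have e : (KK (n + 1) : ℚ) = (6048 * FF n - 37 * FF (n + 1) - 864 * n * (KK n : ℚ)) /
        (2 * ((n : ℚ) + 1) + 1) := by
      rw [eq_div_iff h23]; linarith
    have e2 : aa (n + 1) = ((51 * n + 7) * (FF n : ℚ) / (2 * (2 * n + 1)) - 864 * n * aa n) /
        (2 * ((n : ℚ) + 1) + 1) := by
      rw [eq_div_iff h23]; linarith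
    have e3 : (KK n : ℚ) = 1728 * aa n - 37 * (FF n : ℚ) / (2 * n + 1) := by linarith
    rw [e, e2, e3]
    push_cast
    field_simp
    ring

lemma aa_odd (n : ℕ) (hn : 2 ≤ n) : ∃ D : ℕ, Odd D ∧ ∃ z : ℤ, (D : ℚ) * aa n = z := by
  induction n, hn using Nat.le_induction with
  | base =>
    have h := aa_succ 1 le_rfl
    have e1 : FF 1 = 6 := by decide
    rw [aa_one, e1] at h
    refine ⟨1, odd_one, -190, ?_⟩
    norm_num at h ⊢
    linarith
  | succ n hn ih =>
    obtain ⟨D, hD, z, hz⟩ := ih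
    obtain ⟨G, hG, -, -, -⟩ := G_props n (by omega)
    have h := aa_succ n (by omega)
    have h21 : (2 * (n : ℚ) + 1) ≠ 0 := by positivity
    have hG' : (FF n : ℚ) = (2 * n + 1) * (2 * G) := by rw [hG]; push_cast; ring
    have e : (51 * (n : ℚ) + 7) * (FF n : ℚ) / (2 * (2 * n + 1)) = (51 * n + 7) * G := by
      rw [hG']; field_simp
    rw [e] at h
    refine ⟨D * (2 * n + 3), hD.mul ⟨n + 1, by ring⟩, D * ((51 * n + 7) * G) - 864 * n * z, ?_⟩
    push_cast
    linear_combination (D : ℚ) * h - 864 * (n : ℚ) * hz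

/-- the two arithmetic facts combined -/
lemma aa_third (n : ℕ) (hn : 2 ≤ n) : ∃ b : ℤ, 3 * aa n = b ∧
    ((∀ m : ℕ, 2 * n + 1 ≠ 3 ^ m) → (3 : ℤ) ∣ b) ∧
    ((∃ m : ℕ, 2 * n + 1 = 3 ^ m) → ¬ (3 : ℤ) ∣ b) := by
  obtain ⟨G, hG, hG2, hG3, hG4⟩ := G_props n (by omega)
  obtain ⟨z, hz⟩ := KK_mod n
  have hK := aa_KK n (by omega)
  have h21 : (2 * (n : ℚ) + 1) ≠ 0 := by positivity
  have hG' : (FF n : ℚ) = (2 * n + 1) * (2 * G) := by rw [hG]; push_cast; ring
  have e1 : 37 * (FF n : ℚ) / (2 * n + 1) = 74 * G := by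
    rw [hG']; field_simp; ring
  have e2 : KK n = 4 * n * G - 74 * (2 * n + 1) * G + 27 * z := by
    rw [hz, hG, hG2]; push_cast; ring
  have hN : 1728 * aa n = ((-144 * n * G + 27 * z : ℤ) : ℚ) := by
    rw [hK, e1, e2]; push_cast; ring
  obtain ⟨D, hD, y, hy⟩ := aa_odd n hn
  -- 64 divides the numerator
  have h1 : (D : ℤ) * (-144 * n * G + 27 * z) = 1728 * y := by
    have : ((D : ℤ) : ℚ) * ((-144 * n * G + 27 * z : ℤ) : ℚ) = 1728 * (y : ℚ) := by
      rw [← hN, ← hy]; push_cast; ring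
    exact_mod_cast this
  have hcop : IsCoprime (64 : ℤ) (D : ℤ) := by
    have h2 : Nat.Coprime 2 D := Nat.coprime_two_left.mpr hD
    have h64 : Nat.Coprime 64 D := by
      have := Nat.Coprime.pow_left 6 h2
      simpa using this
    exact_mod_cast Nat.isCoprime_iff_coprime.mpr h64
  have hd : (64 : ℤ) ∣ (-144 * n * G + 27 * z) := by
    apply hcop.dvd_of_dvd_mul_left
    rw [h1]
    exact ⟨27 * y, by ring⟩
  obtain ⟨N', hN'⟩ := hd
  have h9 : (9 : ℤ) ∣ N' := by
    have hc9 : IsCoprime (9 : ℤ) 64 := by norm_num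
    apply hc9.dvd_of_dvd_mul_left
    rw [← hN']
    exact ⟨-16 * n * G + 3 * z, by ring⟩
  obtain ⟨b, hb⟩ := h9
  have hb2 : 64 * b = -16 * n * G + 3 * z := by
    have : 9 * (64 * b) = 9 * (-16 * n * G + 3 * z) := by
      rw [hb] at hN'
      linarith
    linarith
  refine ⟨b, ?_, ?_, ?_⟩
  · have : 1728 * aa n = 576 * (b : ℚ) := by
      rw [hN, hN', hb]; push_cast; ring
    linarith
  · intro h
    obtain ⟨g, hg⟩ := hG3 h
    have hc : IsCoprime (3 : ℤ) 64 := by norm_num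
    apply hc.dvd_of_dvd_mul_left
    rw [hb2, hg]
    exact ⟨-16 * n * g + z, by push_cast; ring⟩
  · intro h h3
    apply hG4 h
    obtain ⟨c, hc⟩ := h3
    have h5 : (3 : ℤ) ∣ 16 * (n * G : ℤ) := ⟨z - 64 * c, by rw [hc] at hb2; linarith⟩
    have hc16 : IsCoprime (3 : ℤ) 16 := by norm_num
    have h6 := hc16.dvd_of_dvd_mul_left h5
    exact_mod_cast h6

lemma FF_succ (n : ℕ) : FF (n + 1) * (n + 1) ^ 2 = FF n * (3 * (3 * n + 1) * (3 * n + 2)) := by
  have h1 := FF_fact n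
  have h2 := FF_fact (n + 1)
  have e1 : 3 * (n + 1) = 3 * n + 2 + 1 := by ring
  rw [e1, Nat.factorial_succ, show 3 * n + 2 = (3 * n + 1) + 1 from rfl, Nat.factorial_succ,
    Nat.factorial_succ, Nat.factorial_succ, ← h1] at h2
  have hp : 0 < (n.factorial) ^ 3 * (n + 1) := by positivity
  apply Nat.eq_of_mul_eq_mul_right hp
  calc FF (n + 1) * (n + 1) ^ 2 * ((n.factorial) ^ 3 * (n + 1))
      = FF (n + 1) * ((n + 1) * n.factorial) ^ 3 := by ring
    _ = _ := h2
    _ = _ := by ring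

lemma tt_pos (n : ℕ) : 0 < tt n := by
  rw [tt_eq]
  have h1 : (0 : ℤ) < (Nat.centralBinom n : ℤ) := by exact_mod_cast Nat.centralBinom_pos n
  have h2 : (0 : ℤ) < (FF n : ℤ) := by exact_mod_cast FF_pos n
  positivity

lemma tt_succ_le (n : ℕ) : tt (n + 1) ≤ 864 * tt n := by
  have hF : (FF (n + 1) : ℤ) * ((n : ℤ) + 1) ^ 2 = FF n * (3 * (3 * n + 1) * (3 * n + 2)) := by
    exact_mod_cast FF_succ n
  have hC : ((n : ℤ) + 1) * (Nat.centralBinom (n + 1) : ℤ) =
      2 * (2 * n + 1) * (Nat.centralBinom n : ℤ) := by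
    exact_mod_cast Nat.succ_mul_centralBinom_succ n
  have e1 : tt (n + 1) * ((n : ℤ) + 1) ^ 3 = (51 * n + 58) * (2 * (2 * n + 1) *
      (3 * (3 * n + 1) * (3 * n + 2))) * ((Nat.centralBinom n : ℤ) * (FF n : ℤ)) := by
    rw [tt_eq]
    push_cast
    linear_combination (51 * ((n : ℤ) + 1) + 7) * (((n : ℤ) + 1) * (Nat.centralBinom (n + 1) : ℤ) * hF
      + FF n * (3 * (3 * (n : ℤ) + 1) * (3 * n + 2)) * hC)
  have e2 : tt n * ((n : ℤ) + 1) ^ 3 = (51 * n + 7) * ((n : ℤ) + 1) ^ 3 *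
      ((Nat.centralBinom n : ℤ) * (FF n : ℤ)) := by
    rw [tt_eq]; ring
  have hp : (0 : ℤ) < ((n : ℤ) + 1) ^ 3 := by positivity
  have hw : (0 : ℤ) ≤ (Nat.centralBinom n : ℤ) * (FF n : ℤ) := by positivity
  have hpoly : (51 * (n : ℤ) + 58) * (2 * (2 * n + 1) * (3 * (3 * n + 1) * (3 * n + 2))) ≤
      864 * ((51 * n + 7) * ((n : ℤ) + 1) ^ 3) := by
    have hn : (0 : ℤ) ≤ n := by positivity
    nlinarith [pow_nonneg hn 2, pow_nonneg hn 3, pow_nonneg hn 4]
  have : tt (n + 1) * ((n : ℤ) + 1) ^ 3 ≤ (864 * tt n) * ((n : ℤ) + 1) ^ 3 := by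
    rw [e1, mul_assoc 864 (tt n), e2]
    nlinarith [mul_le_mul_of_nonneg_right hpoly hw]
  exact le_of_mul_le_mul_right this hp

/-- the signed sum is positive -/
lemma SS_sign (n : ℕ) (hn : 1 ≤ n) : tt n ≤ 864 * ((-1) ^ (n - 1) * SS n) := by
  induction n, hn using Nat.le_induction with
  | base =>
    have e : SS 1 = 7 := by decide
    have e2 : tt 1 = 696 := by decide
    rw [e, e2]
    norm_num
  | succ n hn ih =>
    obtain ⟨k, rfl⟩ : ∃ k, n = k + 1 := ⟨n - 1, by omega⟩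
    have hS := SS_succ (k + 1)
    have h1 : k + 1 + 1 - 1 = k + 1 := rfl
    have h2 : k + 1 - 1 = k := rfl
    rw [h2] at ih
    rw [h1, hS]
    have hle := tt_succ_le (k + 1)
    have hpos := tt_pos (k + 1)
    have e : (-1 : ℤ) ^ (k + 1) * (-1728 * SS (k + 1) + tt (k + 1)) =
        1728 * ((-1) ^ k * SS (k + 1)) - (-1) ^ k * tt (k + 1) := by
      rw [pow_succ]; ring
    rw [e]
    have h3 : (-1 : ℤ) ^ k * tt (k + 1) ≤ tt (k + 1) := by
      rcases neg_one_pow_eq_or ℤ k with h | h <;> rw [h] <;> linarith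
    linarith

lemma aa_sign (n : ℕ) (hn : 1 ≤ n) : 0 < (-1 : ℚ) ^ (n - 1) * aa n := by
  have h1 := SS_sign n hn
  have h2 := tt_pos n
  have h3 : 0 < (-1 : ℤ) ^ (n - 1) * SS n := by linarith
  have h4 : (0 : ℚ) < (-1 : ℚ) ^ (n - 1) * (SS n : ℚ) := by exact_mod_cast h3
  unfold aa
  rw [← mul_div_assoc]
  have hb : (0 : ℚ) < (Nat.centralBinom n : ℚ) := by exact_mod_cast Nat.centralBinom_pos n
  have hn0 : (0 : ℚ) < n := by exact_mod_cast hn
  positivity

end Pool.Agent.H17
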